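import Pool.Agent.Helper635.LLL

set_option autoImplicit false
open Classical

namespace Pool.Agent.H786R3.LAC

open Pool.Agent.Helper635.LLL

variable {V : Type} {d : ℕ}

/-- a representative of the cycle of `v` under `s i` -/
noncomputable def rep (s : Fin d → Equiv.Perm V) (i : Fin d) (v : V) : V :=
  Quotient.out (Quotient.mk (Equiv.Perm.SameCycle.setoid (s i)) v)

lemma rep_same (s : Fin d → Equiv.Perm V) (i : Fin d) (v : V) :
    (s i).SameCycle (rep s i v) v :=
  Quotient.exact (s := Equiv.Perm.SameCycle.setoid (s i)) (Quotient.out_eq _)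

lemma rep_eq (s : Fin d → Equiv.Perm V) (i : Fin d) {v w : V}
    (h : (s i).SameCycle v w) : rep s i v = rep s i w := by
  unfold rep
  rw [Quotient.sound (s := Equiv.Perm.SameCycle.setoid (s i)) h]

/-- the cycle containing the point `p` -/
noncomputable def K (s : Fin d → Equiv.Perm V) (p : Fin d × V) : Fin d × V :=
  (p.1, rep s p.1 p.2)

/-- the point `p` is chosen in its cycle -/
def Ch (s : Fin d → Equiv.Perm V) {M : ℕ} (ω : Fin d × V → Fin M) (p : Fin d × V) : Prop :=
  ((s p.1) ^ (ω (K s p) : ℕ)) (K s p).2 = p.2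

/-- the point `p` may be chosen -/
def Cand (s : Fin d → Equiv.Perm V) (M : ℕ) (p : Fin d × V) : Prop :=
  ∃ a : Fin M, ((s p.1) ^ (a : ℕ)) (K s p).2 = p.2

/-- the two edges meet -/
def Conf (s : Fin d → Equiv.Perm V) (p q : Fin d × V) : Prop :=
  p.2 = q.2 ∨ p.2 = s q.1 q.2 ∨ s p.1 p.2 = q.2 ∨ s p.1 p.2 = s q.1 q.2

lemma Conf.symm {s : Fin d → Equiv.Perm V} {p q : Fin d × V} (h : Conf s p q) :
    Conf s q p := by
  rcases h with h | h | h | h
  · exact Or.inl h.symm
  · exact Or.inr (Or.inr (Or.inl h.symm))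
  · exact Or.inr (Or.inl h.symm)
  · exact Or.inr (Or.inr (Or.inr h.symm))

lemma cnt_one {T : Type} [Fintype T] {M : ℕ} (t : T) (Q : Fin M → Prop)
    (hQ : ∀ a b, Q a → Q b → a = b) :
    cnt (fun ω : T → Fin M => Q (ω t)) * M ≤ Fintype.card (T → Fin M) := by
  have h1 : ((ev (fun ω : T → Fin M => Q (ω t))) ×ˢ (Finset.univ : Finset (Fin M))).card
      ≤ (Finset.univ : Finset (T → Fin M)).card := by
    refine Finset.card_le_card_of_injOn (fun w => Function.update w.1 t w.2)
      (fun _ _ => Finset.mem_coe.mpr (Finset.mem_univ _)) ?_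
    rintro ⟨ω, c⟩ h ⟨ω', c'⟩ h' he
    have h0 := (mem_ev.mp (Finset.mem_product.mp (Finset.mem_coe.mp h)).1)
    have h0' := (mem_ev.mp (Finset.mem_product.mp (Finset.mem_coe.mp h')).1)
    have e1 : c = c' := by simpa using congrFun he t
    have e2 : ω = ω' := by
      funext u
      by_cases hu : u = t
      · subst hu; exact hQ _ _ h0 h0'
      · have h3 := congrFun he u
        simpa [Function.update_of_ne hu] using h3
    rw [e1, e2]
  rw [Finset.card_product, Finset.card_univ, Finset.card_univ, Fintype.card_fin] at h1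
  exact h1

lemma card_conf [Fintype V] (s : Fin d → Equiv.Perm V) (p : Fin d × V) :
    (Finset.univ.filter (fun q => Conf s p q)).card ≤ 4 * d := by
  have hsub : (Finset.univ.filter (fun q => Conf s p q)) ⊆
      (Finset.univ : Finset (Fin d)).biUnion (fun j =>
        ({(j, p.2), (j, (s j).symm p.2), (j, s p.1 p.2), (j, (s j).symm (s p.1 p.2))} :
          Finset (Fin d × V))) := by
    rintro ⟨j, y⟩ hq
    have h : Conf s p (j, y) := (Finset.mem_filter.mp hq).2
    rw [Finset.mem_biUnion]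
    refine ⟨j, Finset.mem_univ _, ?_⟩
    simp only [Finset.mem_insert, Finset.mem_singleton, Prod.mk.injEq, true_and]
    rcases h with h | h | h | h
    · exact Or.inl h.symm
    · refine Or.inr (Or.inl ?_)
      rw [h]; simp
    · exact Or.inr (Or.inr (Or.inl h.symm))
    · refine Or.inr (Or.inr (Or.inr ?_))
      rw [h]; simp
  refine (Finset.card_le_card hsub).trans ?_
  refine (Finset.card_biUnion_le_card_mul _ _ 4 (fun j _ => ?_)).trans ?_
  · exact Finset.card_le_four
  · rw [Finset.card_univ, Fintype.card_fin, mul_comm]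

lemma card_cand [Fintype V] (s : Fin d → Equiv.Perm V) (M : ℕ) (τ : Fin d × V) :
    (Finset.univ.filter (fun p => Cand s M p ∧ K s p = τ)).card ≤ M := by
  have hsub : (Finset.univ.filter (fun p => Cand s M p ∧ K s p = τ)) ⊆
      (Finset.univ : Finset (Fin M)).image
        (fun a : Fin M => ((τ.1, ((s τ.1) ^ (a : ℕ)) τ.2) : Fin d × V)) := by
    rintro ⟨i, x⟩ hp
    obtain ⟨⟨a, ha⟩, hK⟩ := (Finset.mem_filter.mp hp).2
    subst hK
    rw [Finset.mem_image]
    refine ⟨a, Finset.mem_univ _, ?_⟩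
    refine Prod.ext rfl ?_
    exact ha
  refine (Finset.card_le_card hsub).trans (Finset.card_image_le.trans ?_)
  rw [Finset.card_univ, Fintype.card_fin]

/-- the bad events -/
noncomputable def Ix [Fintype V] (s : Fin d → Equiv.Perm V) (M : ℕ) :
    Finset ((Fin d × V) × (Fin d × V)) :=
  Finset.univ.filter (fun e => Cand s M e.1 ∧ Cand s M e.2 ∧ K s e.1 ≠ K s e.2 ∧
    Conf s e.1 e.2)

lemma card_first [Fintype V] (s : Fin d → Equiv.Perm V) (M : ℕ) (τ : Fin d × V) :
    ((Ix s M).filter (fun e => K s e.1 = τ)).card ≤ M * (4 * d) := by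
  have hsub : ((Ix s M).filter (fun e => K s e.1 = τ)) ⊆
      (Finset.univ.filter (fun p => Cand s M p ∧ K s p = τ)).biUnion (fun p =>
        (Finset.univ.filter (fun q => Conf s p q)).image (fun q => (p, q))) := by
    rintro ⟨p, q⟩ h
    obtain ⟨h1, h2⟩ := Finset.mem_filter.mp h
    obtain ⟨_, h3, h4, h5, h6⟩ := Finset.mem_filter.mp h1
    rw [Finset.mem_biUnion]
    refine ⟨p, Finset.mem_filter.mpr ⟨Finset.mem_univ _, h3, h2⟩, ?_⟩
    exact Finset.mem_image.mpr ⟨q, Finset.mem_filter.mpr ⟨Finset.mem_univ _, h6⟩, rfl⟩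
  refine (Finset.card_le_card hsub).trans ?_
  refine (Finset.card_biUnion_le_card_mul _ _ (4 * d) (fun p _ => ?_)).trans ?_
  · exact Finset.card_image_le.trans (card_conf s p)
  · exact Nat.mul_le_mul_right _ (card_cand s M τ)

lemma card_second [Fintype V] (s : Fin d → Equiv.Perm V) (M : ℕ) (τ : Fin d × V) :
    ((Ix s M).filter (fun e => K s e.2 = τ)).card ≤ M * (4 * d) := by
  have hsub : ((Ix s M).filter (fun e => K s e.2 = τ)) ⊆
      (Finset.univ.filter (fun p => Cand s M p ∧ K s p = τ)).biUnion (fun p =>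
        (Finset.univ.filter (fun q => Conf s p q)).image (fun q => (q, p))) := by
    rintro ⟨p, q⟩ h
    obtain ⟨h1, h2⟩ := Finset.mem_filter.mp h
    obtain ⟨_, h3, h4, h5, h6⟩ := Finset.mem_filter.mp h1
    rw [Finset.mem_biUnion]
    refine ⟨q, Finset.mem_filter.mpr ⟨Finset.mem_univ _, h4, h2⟩, ?_⟩
    exact Finset.mem_image.mpr ⟨p, Finset.mem_filter.mpr ⟨Finset.mem_univ _, h6.symm⟩, rfl⟩
  refine (Finset.card_le_card hsub).trans ?_
  refine (Finset.card_biUnion_le_card_mul _ _ (4 * d) (fun p _ => ?_)).trans ?_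
  · exact Finset.card_image_le.trans (card_conf s p)
  · exact Nat.mul_le_mul_right _ (card_cand s M τ)

lemma inj_pow (f : Equiv.Perm V) (M : ℕ) (hlen : ∀ (v : V) (n : ℕ), 0 < n → n < M → (f ^ n) v ≠ v)
    (r x : V) (a b : Fin M) (ha : (f ^ (a : ℕ)) r = x) (hb : (f ^ (b : ℕ)) r = x) : a = b := by
  have key : ∀ a b : ℕ, a < b → b < M → (f ^ a) r = x → (f ^ b) r = x → False := by
    intro a b hab hbM ha hb
    refine hlen x (b - a) (by omega) (by omega) ?_
    conv_lhs => rw [← ha]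
    rw [← Equiv.Perm.mul_apply, ← pow_add, Nat.sub_add_cancel hab.le, hb]
  rcases lt_trichotomy (a : ℕ) (b : ℕ) with h | h | h
  · exact (key a b h b.2 ha hb).elim
  · exact Fin.ext h
  · exact (key b a h a.2 hb ha).elim

lemma card_pos' {T : Type} [Fintype T] {M : ℕ} (hM0 : 0 < M) :
    0 < Fintype.card (T → Fin M) := by
  have : NeZero M := ⟨hM0.ne'⟩
  exact Fintype.card_pos

lemma prob0 {T : Type} [Fintype T] {M : ℕ} (hM0 : 0 < M) (k l : T) (hkl : k ≠ l)
    (P Q : Fin M → Prop) (hP : ∀ a b, P a → P b → a = b) (hQ : ∀ a b, Q a → Q b → a = b) :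
    (cnt (fun ω : T → Fin M => P (ω k) ∧ Q (ω l)) : ℝ) ≤
      1 / (M : ℝ) ^ 2 * Fintype.card (T → Fin M) := by
  have hNpos : 0 < Fintype.card (T → Fin M) := card_pos' hM0
  have hi := indep (T := T) (C := Fin M) (fun ω => P (ω k)) (fun ω => Q (ω l))
    {k} (by
      intro ω ω' hh h
      have h1 := hh k (by simp)
      rw [← h1]; exact h)
    (by
      intro ω ω' hh h
      have h1 := hh l (by
        rw [Finset.mem_singleton]; exact fun hc => hkl hc.symm)
      rw [← h1]; exact h)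
  have c1 : cnt (fun ω : T → Fin M => P (ω k)) * M ≤ Fintype.card (T → Fin M) :=
    cnt_one k P hP
  have c2 : cnt (fun ω : T → Fin M => Q (ω l)) * M ≤ Fintype.card (T → Fin M) :=
    cnt_one l Q hQ
  generalize Fintype.card (T → Fin M) = N at hNpos hi c1 c2 ⊢
  generalize cnt (fun ω : T → Fin M => P (ω k) ∧ Q (ω l)) = A at hi ⊢
  generalize cnt (fun ω : T → Fin M => P (ω k)) = A1 at hi c1
  generalize cnt (fun ω : T → Fin M => Q (ω l)) = A2 at hi c2
  have hMR : (0 : ℝ) < (M : ℝ) := by exact_mod_cast hM0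
  have hNR : (0 : ℝ) < (N : ℝ) := by exact_mod_cast hNpos
  have c1' : (A1 : ℝ) * M ≤ (N : ℝ) := by exact_mod_cast c1
  have c2' : (A2 : ℝ) * M ≤ (N : ℝ) := by exact_mod_cast c2
  have hi' : (A : ℝ) * (N : ℝ) = (A1 : ℝ) * (A2 : ℝ) := by exact_mod_cast hi
  have hprod := mul_le_mul c1' c2' (by positivity) hNR.le
  have h7 : (A : ℝ) * (M : ℝ) ^ 2 ≤ (N : ℝ) := by
    refine le_of_mul_le_mul_right ?_ hNR
    calc (A : ℝ) * (M : ℝ) ^ 2 * (N : ℝ)
        = ((A : ℝ) * (N : ℝ)) * (M : ℝ) ^ 2 := by ring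
      _ = (A1 : ℝ) * M * ((A2 : ℝ) * M) := by rw [hi']; ring
      _ ≤ _ := hprod
  rw [div_mul_eq_mul_div, one_mul, le_div_iff₀ (by positivity)]
  exact h7

lemma nbr [Fintype V] (s : Fin d → Equiv.Perm V) (M : ℕ) (e : (Fin d × V) × (Fin d × V)) :
    ((Ix s M).filter (fun j => ¬ Disjoint
          ({K s e.1, K s e.2} : Finset (Fin d × V)) {K s j.1, K s j.2})).card ≤
      M * (4 * d) + M * (4 * d) + (M * (4 * d) + M * (4 * d)) := by
  have hsub : ((Ix s M).filter (fun j => ¬ Disjoint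
      ({K s e.1, K s e.2} : Finset (Fin d × V)) {K s j.1, K s j.2})) ⊆
      (((Ix s M).filter (fun j => K s j.1 = K s e.1)) ∪
        ((Ix s M).filter (fun j => K s j.2 = K s e.1))) ∪
      (((Ix s M).filter (fun j => K s j.1 = K s e.2)) ∪
        ((Ix s M).filter (fun j => K s j.2 = K s e.2))) := by
    intro j hj
    obtain ⟨h1, h2⟩ := Finset.mem_filter.mp hj
    rw [Finset.not_disjoint_iff] at h2
    obtain ⟨t, ht1, ht2⟩ := h2
    simp only [Finset.mem_insert, Finset.mem_singleton] at ht1 ht2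
    simp only [Finset.mem_union, Finset.mem_filter]
    rcases ht1 with rfl | rfl <;> rcases ht2 with h | h
    · exact Or.inl (Or.inl ⟨h1, h.symm⟩)
    · exact Or.inl (Or.inr ⟨h1, h.symm⟩)
    · exact Or.inr (Or.inl ⟨h1, h.symm⟩)
    · exact Or.inr (Or.inr ⟨h1, h.symm⟩)
  have hcard := (Finset.card_le_card hsub).trans ((Finset.card_union_le _ _).trans
    (Nat.add_le_add (Finset.card_union_le _ _) (Finset.card_union_le _ _)))
  have a1 := card_first s M (K s e.1)
  have a2 := card_second s M (K s e.1)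
  have a3 := card_first s M (K s e.2)
  have a4 := card_second s M (K s e.2)
  exact hcard.trans (Nat.add_le_add (Nat.add_le_add a1 a2) (Nat.add_le_add a3 a4))

lemma exists_choice [Fintype V] (M : ℕ) (hM : M = 64 * d) (hd : 1 ≤ d)
    (s : Fin d → Equiv.Perm V)
    (hlen : ∀ (i : Fin d) (v : V) (n : ℕ), 0 < n → n < M → (s i ^ n) v ≠ v) :
    ∃ ω : Fin d × V → Fin M, ∀ e ∈ Ix s M, ¬ (Ch s ω e.1 ∧ Ch s ω e.2) := by
  have hM0 : 0 < M := by omega
  refine lll (T := Fin d × V) (C := Fin M) (Ix s M)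
    (fun e ω => Ch s ω e.1 ∧ Ch s ω e.2) (fun e => {K s e.1, K s e.2})
    ?_ (1 / (M : ℝ) ^ 2) (M * (4 * d) + M * (4 * d) + (M * (4 * d) + M * (4 * d)))
    (by positivity) ?_ ?_ ?_ ?_ (card_pos' hM0)
  · intro e he ω ω' hωω' h
    have h1 := hωω' (K s e.1) (by simp)
    have h2 := hωω' (K s e.2) (by simp)
    refine ⟨?_, ?_⟩
    · have := h.1
      unfold Ch at this ⊢
      rw [← h1]; exact this
    · have := h.2
      unfold Ch at this ⊢
      rw [← h2]; exact this
  · intro e he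
    obtain ⟨_, h3, h4, h5, h6⟩ := Finset.mem_filter.mp he
    exact prob0 hM0 (K s e.1) (K s e.2) h5
      (fun a => ((s e.1.1) ^ (a : ℕ)) (K s e.1).2 = e.1.2)
      (fun a => ((s e.2.1) ^ (a : ℕ)) (K s e.2).2 = e.2.2)
      (fun a b ha hb => inj_pow (s e.1.1) M (hlen e.1.1) _ _ a b ha hb)
      (fun a b ha hb => inj_pow (s e.2.1) M (hlen e.2.1) _ _ a b ha hb)
  · intro e he
    convert nbr s M e
  · have hdR : (0 : ℝ) < (d : ℝ) := by exact_mod_cast hd
    have h0 : (M : ℝ) = 64 * (d : ℝ) := by rw [hM]; push_cast; ring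
    push_cast
    rw [h0]
    apply le_of_eq
    field_simp
    norm_num
  · have : 1 ≤ M * (4 * d) := by
      have h1 : 1 ≤ M := hM0
      have h2 : 1 ≤ 4 * d := by omega
      exact Nat.mul_le_mul h1 h2
    omega

theorem pick {V : Type} [Finite V] (d : Nat) (hd : 1 ≤ d) (s : Fin d → Equiv.Perm V)
    (hlen : ∀ (i : Fin d) (v : V) (n : Nat), 0 < n → n < 64 * d → (s i ^ n) v ≠ v) :
    ∃ X : Fin d → Set V, (∀ i v, ∃ x ∈ X i, (s i).SameCycle v x) ∧
      (∀ i j x y, x ∈ X i → y ∈ X j → (i ≠ j ∨ x ≠ y) →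
        x ≠ y ∧ x ≠ s j y ∧ s i x ≠ y ∧ s i x ≠ s j y) := by
  have : Fintype V := Fintype.ofFinite V
  obtain ⟨M, hM⟩ : ∃ M : ℕ, M = 64 * d := ⟨_, rfl⟩
  rw [← hM] at hlen
  obtain ⟨ω, hω⟩ := exists_choice M hM hd s hlen
  refine ⟨fun i => {x | Ch s ω (i, x)}, ?_, ?_⟩
  · intro i v
    refine ⟨((s i) ^ (ω (i, rep s i v) : ℕ)) (rep s i v), ?_, ?_⟩
    · have hsame : (s i).SameCycle (((s i) ^ (ω (i, rep s i v) : ℕ)) (rep s i v)) v := by
        rw [Equiv.Perm.sameCycle_pow_left]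
        exact rep_same s i v
      have hr := rep_eq s i hsame
      show ((s i) ^ (ω (i, rep s i (((s i) ^ (ω (i, rep s i v) : ℕ)) (rep s i v))) : ℕ))
        (rep s i (((s i) ^ (ω (i, rep s i v) : ℕ)) (rep s i v))) = _
      rw [hr]
    · rw [Equiv.Perm.sameCycle_pow_right]
      exact (rep_same s i v).symm
  · intro i j x y hx hy hne
    have hx' : Ch s ω (i, x) := hx
    have hy' : Ch s ω (j, y) := hy
    have hnc : ¬ Conf s (i, x) (j, y) := by
      intro hc
      by_cases hK : K s (i, x) = K s (j, y)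
      · have hij : i = j := congrArg Prod.fst hK
        subst hij
        have hxy : x = y := by
          have e1 : ((s i) ^ (ω (K s (i, x)) : ℕ)) (K s (i, x)).2 = x := hx'
          have e2 : ((s i) ^ (ω (K s (i, y)) : ℕ)) (K s (i, y)).2 = y := hy'
          rw [← e1, hK]
          exact e2
        rcases hne with h | h
        · exact h rfl
        · exact h hxy
      · exact hω ((i, x), (j, y)) (Finset.mem_filter.mpr ⟨Finset.mem_univ _,
          ⟨ω (K s (i, x)), hx'⟩, ⟨ω (K s (j, y)), hy'⟩, hK, hc⟩) ⟨hx', hy'⟩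
    exact ⟨fun h => hnc (Or.inl h), fun h => hnc (Or.inr (Or.inl h)),
      fun h => hnc (Or.inr (Or.inr (Or.inl h))), fun h => hnc (Or.inr (Or.inr (Or.inr h)))⟩

end Pool.Agent.H786R3.LAC
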